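import Mathlib
import Pool.Agent.Y748.SR.Stm

/-!
Expansion of `det (1 + diag(z) K)` in principal minors.
-/

open Finset Matrix

set_option autoImplicit false

namespace Pool.Agent.Y796.SR

/-- `det (1 + M)` is the sum of the principal minors of `M` -/
theorem det_one_add {n : Type} [Fintype n] [DecidableEq n] (M : Matrix n n ℂ) :
    det (1 + M) = ∑ s : Finset n, det (M.submatrix (Subtype.val : s → n) (Subtype.val : s → n)) := by
  rw [add_comm]
  let D := (detRowAlternating : (n → ℂ) [⋀^n]→ₗ[ℂ] ℂ)
  have h1 : det (M + 1) = D ((fun i => M i) + (fun i => (1 : Matrix n n ℂ) i)) := rfl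
  rw [h1, D.map_add_univ]
  refine Finset.sum_congr rfl fun s _ => ?_
  exact det_piecewise_one_eq_submatrix_det M s

theorem t_MIN : Pool.Agent.Y748.SR.S_MIN := by
  intro Y K z
  rw [det_one_add]
  have hb : ∀ s : Finset Y, det ((Matrix.of fun i j : Y => z i * K i j).submatrix
        (Subtype.val : s → Y) (Subtype.val : s → Y)) =
      det (Matrix.of fun i j : (s.map (Function.Embedding.subtype (fun x => x ∈ Y)) : Finset ℝ) =>
        K i j) * ∏ i ∈ s.map (Function.Embedding.subtype (fun x => x ∈ Y)), z i := by
    intro s
    have h1 : ((Matrix.of fun i j : Y => z i * K i j).submatrix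
        (Subtype.val : s → Y) (Subtype.val : s → Y)) =
        Matrix.of fun i j : s => z i * (Matrix.of fun i j : s => K i j) i j := by
      ext i j; rfl
    rw [h1, Matrix.det_mul_column, mul_comm]
    congr 1
    · let e : (s.map (Function.Embedding.subtype (fun x => x ∈ Y)) : Finset ℝ) ≃ s :=
        { toFun := fun x => ⟨⟨x.1, by
              have := x.2
              simp only [Finset.mem_map, Function.Embedding.subtype_apply] at this
              obtain ⟨a, ha, hx⟩ := this
              rw [← hx]; exact a.2⟩, by
              have := x.2
              simp only [Finset.mem_map, Function.Embedding.subtype_apply] at this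
              obtain ⟨a, ha, hx⟩ := this
              have : (⟨x.1, by rw [← hx]; exact a.2⟩ : Y) = a := Subtype.ext hx.symm
              rw [this]; exact ha⟩
          invFun := fun y => ⟨y.1.1, by
              simp only [Finset.mem_map, Function.Embedding.subtype_apply]
              exact ⟨y.1, y.2, rfl⟩⟩
          left_inv := fun x => by ext; rfl
          right_inv := fun x => by ext; rfl }
      rw [← Matrix.det_submatrix_equiv_self e]
      rfl
    · rw [Finset.prod_map]
      rw [Finset.prod_coe_sort s (fun i => z i)]
      rfl
  simp only [hb]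
  refine Finset.sum_bij (fun s _ => s.map (Function.Embedding.subtype (fun x => x ∈ Y))) ?_ ?_ ?_ ?_
  · intro s _
    rw [Finset.mem_powerset]
    intro x hx
    simp only [Finset.mem_map, Function.Embedding.subtype_apply] at hx
    obtain ⟨a, ha, rfl⟩ := hx
    exact a.2
  · intro s _ t _ h
    exact Finset.map_injective _ h
  · intro B hB
    rw [Finset.mem_powerset] at hB
    refine ⟨B.subtype (fun x => x ∈ Y), Finset.mem_univ _, ?_⟩
    ext x
    simp only [Finset.mem_map, Finset.mem_subtype, Function.Embedding.subtype_apply, Subtype.exists,
      exists_and_left, exists_prop, exists_eq_right_right]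
    constructor
    · rintro ⟨h1, h2⟩
      exact h1
    · intro h
      exact ⟨h, hB h⟩
  · intro s _
    rfl

end Pool.Agent.Y796.SR
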